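import Pool.Agent.Helper51.PF.Goals

/-!
# Project PF (MP_c27e85_nt): packet VAL
-/

namespace Pool.Agent.Helper23.PF

open Finset
open Pool.Agent.Helper51.PF

theorem norm_char {G : Type} [CommGroup G] [Fintype G] (ψ : G →* ℂˣ) (g : G) :
    ‖((ψ g : ℂˣ) : ℂ)‖ = 1 := by
  have h : ((ψ g : ℂˣ) : ℂ) ^ Fintype.card G = 1 := by
    rw [← Units.val_pow_eq_pow_val, ← map_pow, pow_card_eq_one, map_one, Units.val_one]
  exact Complex.norm_eq_one_of_pow_eq_one h Fintype.card_ne_zero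

/-- The sum of the squares. -/
theorem sum_sq {n : ℕ} (V : Finset (Fin n)) (a : Fin n → ℂ) (ha : ∀ x, ‖a x‖ = 1) :
    ∑ x ∈ V, ∑ y ∈ V, (‖a x + a y‖ / 2) ^ 2 = ((V.card : ℝ) ^ 2 + ‖∑ x ∈ V, a x‖ ^ 2) / 2 := by
  have h1 : ∀ x y, (‖a x + a y‖ / 2) ^ 2 =
      1 / 2 + 1 / 2 * (a x * (starRingEnd ℂ) (a y)).re := by
    intro x y
    rw [div_pow, Complex.sq_norm, Complex.normSq_add, ← Complex.sq_norm, ← Complex.sq_norm,
      ha x, ha y]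
    ring
  have h2 : ∑ x ∈ V, ∑ y ∈ V, (a x * (starRingEnd ℂ) (a y)).re = ‖∑ x ∈ V, a x‖ ^ 2 := by
    have h3 : ∑ x ∈ V, ∑ y ∈ V, (a x * (starRingEnd ℂ) (a y)) =
        (∑ x ∈ V, a x) * (starRingEnd ℂ) (∑ x ∈ V, a x) := by
      rw [map_sum, Finset.sum_mul_sum]
    have h4 : ∑ x ∈ V, ∑ y ∈ V, (a x * (starRingEnd ℂ) (a y)).re =
        (∑ x ∈ V, ∑ y ∈ V, (a x * (starRingEnd ℂ) (a y))).re := by
      rw [Complex.re_sum]
      refine Finset.sum_congr rfl fun x _ => ?_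
      rw [Complex.re_sum]
    rw [h4, h3, Complex.mul_conj, Complex.ofReal_re, Complex.sq_norm]
  have h5 : ∑ x ∈ V, ∑ y ∈ V, (‖a x + a y‖ / 2) ^ 2 =
      ∑ x ∈ V, ∑ y ∈ V, (1 / 2 + 1 / 2 * (a x * (starRingEnd ℂ) (a y)).re) :=
    Finset.sum_congr rfl fun x _ => Finset.sum_congr rfl fun y _ => h1 x y
  rw [h5]
  simp only [Finset.sum_add_distrib, ← Finset.mul_sum, Finset.sum_const, nsmul_eq_mul]
  rw [h2]
  ring

theorem val_aux {n : ℕ} (V : Finset (Fin n)) (a : Fin n → ℂ) (ha : ∀ x, ‖a x‖ = 1)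
    (hs : ‖∑ x, a x‖ ≤ (n : ℝ) / 4) (hV : (99 : ℝ) / 100 * n ≤ V.card) :
    ∑ x ∈ V, ∑ y ∈ V, (‖a x + a y‖ / 2) ≤ 3 / 4 * (V.card : ℝ) ^ 2 := by
  classical
  have hn : (0 : ℝ) ≤ n := Nat.cast_nonneg n
  have hm : (0 : ℝ) ≤ V.card := Nat.cast_nonneg _
  -- the sum over `V`
  have h1 : ‖∑ x ∈ V, a x‖ ≤ (n : ℝ) / 4 + (n - V.card) := by
    have h2 : ∑ x ∈ V, a x = ∑ x, a x - ∑ x ∈ univ \ V, a x := by
      rw [← Finset.sum_sdiff (Finset.subset_univ V)]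
      ring
    have h3 : ‖∑ x ∈ univ \ V, a x‖ ≤ (n : ℝ) - V.card := by
      refine (norm_sum_le _ _).trans ?_
      rw [Finset.sum_congr rfl fun x _ => ha x, Finset.sum_const, nsmul_eq_mul, mul_one,
        Finset.card_sdiff_of_subset (Finset.subset_univ V), Finset.card_univ, Fintype.card_fin,
        Nat.cast_sub]
      simpa using Finset.card_le_univ V
    rw [h2]
    exact (norm_sub_le _ _).trans (add_le_add hs h3)
  have h4 : ‖∑ x ∈ V, a x‖ ≤ 3 / 10 * (V.card : ℝ) := by linarith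
  have h5 := sum_sq V a ha
  have h6 : ‖∑ x ∈ V, a x‖ ^ 2 ≤ (3 / 10 * (V.card : ℝ)) ^ 2 :=
    pow_le_pow_left₀ (norm_nonneg _) h4 2
  -- Cauchy-Schwarz
  have h7 : (∑ x ∈ V, ∑ y ∈ V, (‖a x + a y‖ / 2)) ^ 2 ≤
      (V.card : ℝ) ^ 2 * ∑ x ∈ V, ∑ y ∈ V, (‖a x + a y‖ / 2) ^ 2 := by
    have h8 := sq_sum_le_card_mul_sum_sq (s := V ×ˢ V)
      (f := fun p : Fin n × Fin n => ‖a p.1 + a p.2‖ / 2)
    rw [Finset.sum_product, Finset.sum_product, Finset.card_product] at h8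
    push_cast at h8
    rw [sq (V.card : ℝ)]
    exact h8
  rw [h5] at h7
  have h9 : (∑ x ∈ V, ∑ y ∈ V, (‖a x + a y‖ / 2)) ^ 2 ≤ (3 / 4 * (V.card : ℝ) ^ 2) ^ 2 := by
    refine h7.trans ?_
    have h10 : ((V.card : ℝ) ^ 2 + ‖∑ x ∈ V, a x‖ ^ 2) / 2 ≤ 9 / 16 * (V.card : ℝ) ^ 2 := by
      nlinarith [sq_nonneg (V.card : ℝ)]
    calc (V.card : ℝ) ^ 2 * (((V.card : ℝ) ^ 2 + ‖∑ x ∈ V, a x‖ ^ 2) / 2)
        ≤ (V.card : ℝ) ^ 2 * (9 / 16 * (V.card : ℝ) ^ 2) :=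
          mul_le_mul_of_nonneg_left h10 (sq_nonneg _)
      _ = (3 / 4 * (V.card : ℝ) ^ 2) ^ 2 := by ring
  exact le_of_sq_le_sq h9 (by positivity)

/-- The packet VAL. -/
theorem g_val : G_VAL := by
  intro G _ _ n v hv ψ hψ V hV _
  exact val_aux V (fun x => ((ψ (v x) : ℂˣ) : ℂ)) (fun x => norm_char ψ (v x)) (hv ψ hψ) hV

end Pool.Agent.Helper23.PF
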